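import Pool.Agent.H28.N6.Targets

/-!
CPT: the set of pencils with an isotropic plane is closed (board n6).
-/

set_option autoImplicit false
open MeasureTheory

namespace Pool.Agent.H41.N6D

open MeasureTheory Pool.Agent.H28.N6 Filter Topology

section

variable {F : Type} [Field F]

theorem qf_smul_mat (c : F) (G : Matrix (Fin 4) (Fin 4) F) (z : Fin 4 → F) :
    qf (c • G) z = c * qf G z := by
  unfold qf
  rw [Matrix.smul_mulVec, dotProduct_smul, smul_eq_mul]

theorem qf_comb (G : Matrix (Fin 4) (Fin 4) F) (u v : Fin 4 → F) (x y : F) :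
    qf G (x • u + y • v) = x ^ 2 * qf G u + y ^ 2 * qf G v +
      x * y * (qf G (u + v) - qf G u - qf G v) := by
  unfold qf
  simp only [Matrix.mulVec_add, Matrix.mulVec_smul, dotProduct_add, add_dotProduct,
    smul_dotProduct, dotProduct_smul, smul_eq_mul]
  ring

/-- a vector scaled so that its maximal coordinate is `1` -/
theorem scale {F : Type} [NontriviallyNormedField F] (u : Fin 4 → F) (hu : u ≠ 0) :
    ∃ i : Fin 4, u i ≠ 0 ∧ ∀ l, ‖((u i)⁻¹ • u) l‖ ≤ 1 := by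
  obtain ⟨i, -, hi⟩ := Finset.exists_max_image (Finset.univ : Finset (Fin 4)) (fun l => ‖u l‖)
    ⟨0, Finset.mem_univ _⟩
  have h0 : u i ≠ 0 := by
    intro h
    apply hu
    funext l
    have := hi l (Finset.mem_univ _)
    rw [h, norm_zero] at this
    exact norm_le_zero_iff.1 this
  refine ⟨i, h0, fun l => ?_⟩
  rw [Pi.smul_apply, smul_eq_mul, norm_mul, norm_inv, inv_mul_le_iff₀ (norm_pos_iff.2 h0), mul_one]
  exact hi l (Finset.mem_univ _)

end

section

variable {F : Type} [NontriviallyNormedField F]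

/-- the normalised data -/
def KK (F : Type) [NontriviallyNormedField F] : Set ((F × F) × ((Fin 4 → F) × (Fin 4 → F))) :=
  {x | (‖x.1.1‖ ≤ 1 ∧ ‖x.1.2‖ ≤ 1) ∧ (x.1.1 = 1 ∨ x.1.2 = 1) ∧
    (∀ l, ‖x.2.1 l‖ ≤ 1) ∧ (∀ l, ‖x.2.2 l‖ ≤ 1) ∧
    ∃ i j : Fin 4, x.2.1 i = 1 ∧ x.2.2 i = 0 ∧ x.2.2 j = 1}

theorem KK_closed : IsClosed (KK F) := by
  have e : KK F = {x | ‖x.1.1‖ ≤ 1} ∩ {x | ‖x.1.2‖ ≤ 1} ∩ ({x | x.1.1 = 1} ∪ {x | x.1.2 = 1}) ∩
      (⋂ l, {x | ‖x.2.1 l‖ ≤ 1}) ∩ (⋂ l, {x | ‖x.2.2 l‖ ≤ 1}) ∩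
      (⋃ i, ⋃ j, ({x | x.2.1 i = 1} ∩ {x | x.2.2 i = 0} ∩ {x | x.2.2 j = 1})) := by
    ext x
    simp only [KK, Set.mem_inter_iff, Set.mem_union, Set.mem_setOf_eq, Set.mem_iInter,
      Set.mem_iUnion]
    tauto
  rw [e]
  have c1 : Continuous fun x : (F × F) × ((Fin 4 → F) × (Fin 4 → F)) => x.1.1 :=
    continuous_fst.comp continuous_fst
  have c2 : Continuous fun x : (F × F) × ((Fin 4 → F) × (Fin 4 → F)) => x.1.2 :=
    continuous_snd.comp continuous_fst
  have c3 : ∀ l, Continuous fun x : (F × F) × ((Fin 4 → F) × (Fin 4 → F)) => x.2.1 l :=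
    fun l => (continuous_apply l).comp (continuous_fst.comp continuous_snd)
  have c4 : ∀ l, Continuous fun x : (F × F) × ((Fin 4 → F) × (Fin 4 → F)) => x.2.2 l :=
    fun l => (continuous_apply l).comp (continuous_snd.comp continuous_snd)
  refine IsClosed.inter (IsClosed.inter (IsClosed.inter (IsClosed.inter (IsClosed.inter
    (isClosed_le c1.norm continuous_const) (isClosed_le c2.norm continuous_const))
    (IsClosed.union (isClosed_eq c1 continuous_const) (isClosed_eq c2 continuous_const)))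
    (isClosed_iInter fun l => isClosed_le (c3 l).norm continuous_const))
    (isClosed_iInter fun l => isClosed_le (c4 l).norm continuous_const)) ?_
  refine isClosed_iUnion_of_finite fun i => isClosed_iUnion_of_finite fun j => ?_
  exact ((isClosed_eq (c3 i) continuous_const).inter
    (isClosed_eq (c4 i) continuous_const)).inter (isClosed_eq (c4 j) continuous_const)

theorem KK_compact [ProperSpace F] : IsCompact (KK F) := by
  refine Metric.isCompact_of_isClosed_isBounded KK_closed ?_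
  refine (Metric.isBounded_closedBall (x := 0) (r := 1)).subset fun x hx => ?_
  obtain ⟨⟨h1, h2⟩, -, h3, h4, -⟩ := hx
  rw [mem_closedBall_zero_iff, Prod.norm_def, Prod.norm_def, Prod.norm_def]
  refine max_le (max_le h1 h2) (max_le ?_ ?_)
  · exact (pi_norm_le_iff_of_nonneg zero_le_one).2 h3
  · exact (pi_norm_le_iff_of_nonneg zero_le_one).2 h4

/-- the normalisation -/
theorem normalise (A B : Matrix (Fin 4) (Fin 4) F) (a b : F) (hab : a ≠ 0 ∨ b ≠ 0)
    (h : IsoSp (a • A + b • B) 2) : ∃ x ∈ KK F, qf (x.1.1 • A + x.1.2 • B) x.2.1 = 0 ∧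
      qf (x.1.1 • A + x.1.2 • B) x.2.2 = 0 ∧
      qf (x.1.1 • A + x.1.2 • B) (x.2.1 + x.2.2) = 0 := by
  obtain ⟨W, hW, hz⟩ := h
  -- the first vector
  have h1 : W ≠ ⊥ := by
    rintro rfl
    rw [finrank_bot] at hW
    exact absurd hW (by norm_num)
  obtain ⟨u, huW, hu0⟩ := Submodule.exists_mem_ne_zero_of_ne_bot h1
  obtain ⟨i, hi, hi1⟩ := scale u hu0
  obtain ⟨u', hu'⟩ : ∃ u', u' = (u i)⁻¹ • u := ⟨_, rfl⟩
  have hu'W : u' ∈ W := by rw [hu']; exact W.smul_mem _ huW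
  have hu'i : u' i = 1 := by
    rw [hu', Pi.smul_apply, smul_eq_mul, inv_mul_cancel₀ hi]
  rw [← hu'] at hi1
  -- the second vector
  have h2 : ∃ v ∈ W, v ∉ Submodule.span F {u'} := by
    by_contra hcon
    push Not at hcon
    have h3 : W ≤ Submodule.span F {u'} := hcon
    have h4 := Submodule.finrank_mono h3
    have h5 : Module.finrank F (Submodule.span F {u'}) ≤ 1 := by
      refine (finrank_span_le_card ({u'} : Set (Fin 4 → F))).trans ?_
      simp
    omega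
  obtain ⟨v, hvW, hv⟩ := h2
  obtain ⟨v1, hv1⟩ : ∃ v1, v1 = v - v i • u' := ⟨_, rfl⟩
  have hv1W : v1 ∈ W := by rw [hv1]; exact W.sub_mem hvW (W.smul_mem _ hu'W)
  have hv10 : v1 ≠ 0 := by
    intro h
    apply hv
    rw [hv1, sub_eq_zero] at h
    rw [h]
    exact Submodule.smul_mem _ _ (Submodule.mem_span_singleton_self u')
  have hv1i : v1 i = 0 := by
    rw [hv1, Pi.sub_apply, Pi.smul_apply, smul_eq_mul, hu'i, mul_one, sub_self]
  obtain ⟨j, hj, hj1⟩ := scale v1 hv10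
  obtain ⟨v', hv'⟩ : ∃ v', v' = (v1 j)⁻¹ • v1 := ⟨_, rfl⟩
  have hv'W : v' ∈ W := by rw [hv']; exact W.smul_mem _ hv1W
  have hv'j : v' j = 1 := by
    rw [hv', Pi.smul_apply, smul_eq_mul, inv_mul_cancel₀ hj]
  have hv'i : v' i = 0 := by
    rw [hv', Pi.smul_apply, smul_eq_mul, hv1i, mul_zero]
  rw [← hv'] at hj1
  -- the coefficients
  rcases le_total ‖b‖ ‖a‖ with hle | hle
  · have ha : a ≠ 0 := by
      rcases hab with h | h
      · exact h
      · intro ha
        rw [ha, norm_zero] at hle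
        exact h (norm_le_zero_iff.1 hle)
    have e : (1 : F) • A + (a⁻¹ * b) • B = a⁻¹ • (a • A + b • B) := by
      rw [smul_add, smul_smul, smul_smul, inv_mul_cancel₀ ha]
    refine ⟨((1, a⁻¹ * b), (u', v')), ⟨⟨?_, ?_⟩, Or.inl rfl, hi1, hj1, i, j, hu'i, hv'i, hv'j⟩,
      ?_, ?_, ?_⟩
    · exact norm_one.le
    · show ‖a⁻¹ * b‖ ≤ 1
      rw [norm_mul, norm_inv, inv_mul_le_iff₀ (norm_pos_iff.2 ha), mul_one]
      exact hle
    · show qf ((1 : F) • A + (a⁻¹ * b) • B) u' = 0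
      rw [e, qf_smul_mat, hz _ hu'W, mul_zero]
    · show qf ((1 : F) • A + (a⁻¹ * b) • B) v' = 0
      rw [e, qf_smul_mat, hz _ hv'W, mul_zero]
    · show qf ((1 : F) • A + (a⁻¹ * b) • B) (u' + v') = 0
      rw [e, qf_smul_mat, hz _ (W.add_mem hu'W hv'W), mul_zero]
  · have hb : b ≠ 0 := by
      rcases hab with h | h
      · intro hb
        rw [hb, norm_zero] at hle
        exact h (norm_le_zero_iff.1 hle)
      · exact h
    have e : (b⁻¹ * a) • A + (1 : F) • B = b⁻¹ • (a • A + b • B) := by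
      rw [smul_add, smul_smul, smul_smul, inv_mul_cancel₀ hb]
    refine ⟨((b⁻¹ * a, 1), (u', v')), ⟨⟨?_, ?_⟩, Or.inr rfl, hi1, hj1, i, j, hu'i, hv'i, hv'j⟩,
      ?_, ?_, ?_⟩
    · show ‖b⁻¹ * a‖ ≤ 1
      rw [norm_mul, norm_inv, inv_mul_le_iff₀ (norm_pos_iff.2 hb), mul_one]
      exact hle
    · exact norm_one.le
    · show qf ((b⁻¹ * a) • A + (1 : F) • B) u' = 0
      rw [e, qf_smul_mat, hz _ hu'W, mul_zero]
    · show qf ((b⁻¹ * a) • A + (1 : F) • B) v' = 0
      rw [e, qf_smul_mat, hz _ hv'W, mul_zero]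
    · show qf ((b⁻¹ * a) • A + (1 : F) • B) (u' + v') = 0
      rw [e, qf_smul_mat, hz _ (W.add_mem hu'W hv'W), mul_zero]

theorem qf_tendsto {An Bn : ℕ → Matrix (Fin 4) (Fin 4) F} {A B : Matrix (Fin 4) (Fin 4) F}
    (hA : ∀ i j, Tendsto (fun n => An n i j) atTop (𝓝 (A i j)))
    (hB : ∀ i j, Tendsto (fun n => Bn n i j) atTop (𝓝 (B i j))) {an bn : ℕ → F} {a b : F}
    (ha : Tendsto an atTop (𝓝 a)) (hb : Tendsto bn atTop (𝓝 b)) {zn : ℕ → Fin 4 → F}
    {z : Fin 4 → F} (hz : ∀ l, Tendsto (fun n => zn n l) atTop (𝓝 (z l)))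
    (h0 : ∀ n, qf (an n • An n + bn n • Bn n) (zn n) = 0) : qf (a • A + b • B) z = 0 := by
  have h1 : Tendsto (fun n => qf (an n • An n + bn n • Bn n) (zn n)) atTop
      (𝓝 (qf (a • A + b • B) z)) := by
    unfold qf dotProduct Matrix.mulVec dotProduct
    refine tendsto_finsetSum _ fun i _ => (hz i).mul ?_
    refine tendsto_finsetSum _ fun j _ => Tendsto.mul ?_ (hz j)
    exact (ha.mul (hA i j)).add (hb.mul (hB i j))
  have h2 : (fun n => qf (an n • An n + bn n • Bn n) (zn n)) = fun _ => 0 := funext h0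
  rw [h2] at h1
  exact (tendsto_nhds_unique h1 tendsto_const_nhds).symm ▸ rfl

end

theorem pf_CPT : T_CPT := by
  intro F _ _ _ A B h
  have h1 : ∀ n : ℕ, ∃ A' B' : Matrix (Fin 4) (Fin 4) F,
      (∀ i j, ‖A' i j - A i j‖ < 1 / ((n : ℝ) + 1)) ∧
      (∀ i j, ‖B' i j - B i j‖ < 1 / ((n : ℝ) + 1)) ∧
      ∃ x ∈ KK F, qf (x.1.1 • A' + x.1.2 • B') x.2.1 = 0 ∧
      qf (x.1.1 • A' + x.1.2 • B') x.2.2 = 0 ∧
      qf (x.1.1 • A' + x.1.2 • B') (x.2.1 + x.2.2) = 0 := by
    intro n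
    obtain ⟨A', B', hA, hB, a, b, hab, hI⟩ := h (1 / ((n : ℝ) + 1)) (by positivity)
    exact ⟨A', B', hA, hB, normalise A' B' a b hab hI⟩
  choose An Bn hA hB xn hxK hx1 hx2 hx3 using h1
  obtain ⟨x, hxK', φ, hφ, hx⟩ := KK_compact.tendsto_subseq hxK
  have hlim : ∀ {C : Matrix (Fin 4) (Fin 4) F} {Cn : ℕ → Matrix (Fin 4) (Fin 4) F},
      (∀ n i j, ‖Cn n i j - C i j‖ < 1 / ((n : ℝ) + 1)) →
      ∀ i j, Tendsto (fun n => Cn (φ n) i j) atTop (𝓝 (C i j)) := by
    intro C Cn hC i j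
    have h2 : Tendsto (fun n => Cn n i j) atTop (𝓝 (C i j)) := by
      rw [tendsto_iff_norm_sub_tendsto_zero]
      exact squeeze_zero (fun n => norm_nonneg _) (fun n => (hC n i j).le)
        tendsto_one_div_add_atTop_nhds_zero_nat
    exact h2.comp hφ.tendsto_atTop
  have hA' := hlim hA
  have hB' := hlim hB
  have ha : Tendsto (fun n => (xn (φ n)).1.1) atTop (𝓝 x.1.1) :=
    ((continuous_fst.comp continuous_fst).tendsto x).comp hx
  have hb : Tendsto (fun n => (xn (φ n)).1.2) atTop (𝓝 x.1.2) :=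
    ((continuous_snd.comp continuous_fst).tendsto x).comp hx
  have hu : ∀ l, Tendsto (fun n => (xn (φ n)).2.1 l) atTop (𝓝 (x.2.1 l)) := fun l =>
    (((continuous_apply l).comp (continuous_fst.comp continuous_snd)).tendsto x).comp hx
  have hv : ∀ l, Tendsto (fun n => (xn (φ n)).2.2 l) atTop (𝓝 (x.2.2 l)) := fun l =>
    (((continuous_apply l).comp (continuous_snd.comp continuous_snd)).tendsto x).comp hx
  have g1 := qf_tendsto hA' hB' ha hb hu fun n => hx1 (φ n)
  have g2 := qf_tendsto hA' hB' ha hb hv fun n => hx2 (φ n)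
  have g3 := qf_tendsto (zn := fun n => (xn (φ n)).2.1 + (xn (φ n)).2.2)
    (z := x.2.1 + x.2.2) hA' hB' ha hb (fun l => (hu l).add (hv l)) fun n => hx3 (φ n)
  obtain ⟨-, hor, -, -, i, j, hui, hvi, hvj⟩ := hxK'
  refine ⟨x.1.1, x.1.2, ?_, Submodule.span F {x.2.1, x.2.2}, ?_, ?_⟩
  · rcases hor with h | h
    · left
      rw [h]
      exact one_ne_zero
    · right
      rw [h]
      exact one_ne_zero
  · have hli : LinearIndependent F ![x.2.1, x.2.2] := by
      rw [LinearIndependent.pair_iff]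
      intro s t hst
      have e1 := congrFun hst i
      have e2 := congrFun hst j
      simp only [Pi.add_apply, Pi.smul_apply, smul_eq_mul, Pi.zero_apply, hui, hvi, hvj, mul_one,
        mul_zero, add_zero] at e1 e2
      rw [e1, zero_mul, zero_add] at e2
      exact ⟨e1, e2⟩
    have h4 := finrank_span_eq_card hli
    rw [Matrix.range_cons, Matrix.range_cons, Matrix.range_empty, Set.union_empty,
      Set.singleton_union, Fintype.card_fin] at h4
    exact h4
  · intro z hz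
    obtain ⟨s, t, rfl⟩ := Submodule.mem_span_pair.1 hz
    rw [qf_comb, g1, g2, g3]
    ring

end Pool.Agent.H41.N6D
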